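import Mathlib
import Pool.Agent.Helper950.BG.Final7

set_option autoImplicit false

namespace Pool.Agent.Results.MP_b64966_al.FaithfulDimLower

open Pool.Agent.Helper950.BG

universe u

/-- If the pure braid group `P_n` or the braid group `B_n` embeds in `GL_d(K)` for some
field `K`, then `d ≥ n - 1`. -/
theorem result :
    (∀ (n d : ℕ) (K : Type u) [Field K]
      (f : PureBraidGroup n →* Matrix.GeneralLinearGroup (Fin d) K),
      Function.Injective f → n - 1 ≤ d) ∧
    (∀ (n d : ℕ) (K : Type u) [Field K]
      (f : BraidGroup n →* Matrix.GeneralLinearGroup (Fin d) K),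
      Function.Injective f → n - 1 ≤ d) :=
  ⟨fun n d K _ f hf => lower_pure_all n d K f hf, fun n d K _ f hf =>
    lower_pure_all n d K (f.comp (PureBraidGroup n).subtype)
      (by rw [MonoidHom.coe_comp]; exact hf.comp Subtype.coe_injective)⟩

end Pool.Agent.Results.MP_b64966_al.FaithfulDimLower
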